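import Pool.Statements.S07874
import Pool.Agent.Results.MP_2d87f2_co.Blowup

set_option autoImplicit false
open Pool Pool.MP_2d87f2_co

namespace Pool.Agent.T2h40.Kept.S07874

open Pool.Agent.Results.MP_2d87f2_co.Blowup in
theorem bd_ncard {V : Type} (G : SimpleGraph V) (A : Finset V) : (edgeBoundary G A).ncard =
    Set.ncard {p : V × V | p.1 ∈ A ∧ p.2 ∉ A ∧ G.Adj p.1 p.2} := by
  have h : edgeBoundary G A = (fun p : V × V => s(p.1, p.2)) ''
      {p : V × V | p.1 ∈ A ∧ p.2 ∉ A ∧ G.Adj p.1 p.2} := by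
    ext e
    constructor
    · rintro ⟨he, u, hu, v, hv, rfl⟩
      exact ⟨(u, v), ⟨hu, hv, he⟩, rfl⟩
    · rintro ⟨⟨u, v⟩, ⟨hu, hv, h⟩, rfl⟩
      exact ⟨h, u, hu, v, hv, rfl⟩
  rw [h]
  apply Set.ncard_image_of_injOn
  rintro ⟨a, b⟩ ⟨ha, hb, -⟩ ⟨c, d⟩ ⟨hc, hd, -⟩ h
  simp only [Sym2.eq_iff] at h
  rcases h with ⟨rfl, rfl⟩ | ⟨rfl, rfl⟩
  · rfl
  · exact absurd ha hd

open Pool.Agent.Results.MP_2d87f2_co.Blowup in
theorem net_ncard {V : Type} (G : SimpleGraph V) (k : ℕ) (S : Set V) (A : Finset S) :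
    (edgeBoundary (netGraph G k S) A).ncard =
    Set.ncard {p : V × V | p.1 ∈ A.map (Function.Embedding.subtype _) ∧ p.2 ∈ S ∧
      p.2 ∉ A.map (Function.Embedding.subtype _) ∧ G.dist p.1 p.2 ≤ 2 * k} := by
  rw [bd_ncard]
  have h : {p : V × V | p.1 ∈ A.map (Function.Embedding.subtype _) ∧ p.2 ∈ S ∧
      p.2 ∉ A.map (Function.Embedding.subtype _) ∧ G.dist p.1 p.2 ≤ 2 * k} =
      (fun p : S × S => ((p.1 : V), (p.2 : V))) ''
      {p : S × S | p.1 ∈ A ∧ p.2 ∉ A ∧ (netGraph G k S).Adj p.1 p.2} := by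
    ext ⟨a, b⟩
    constructor
    · rintro ⟨ha, hb, hb', hd⟩
      simp only [Finset.mem_map, Function.Embedding.subtype_apply] at ha hb'
      obtain ⟨a', ha', rfl⟩ := ha
      refine ⟨(a', ⟨b, hb⟩), ⟨ha', fun h => hb' ⟨_, h, rfl⟩, ?_, hd⟩, rfl⟩
      intro h
      exact hb' ⟨a', ha', congrArg Subtype.val h⟩
    · rintro ⟨⟨a', b'⟩, ⟨ha, hb, h⟩, heq⟩
      simp only [Prod.mk.injEq] at heq
      obtain ⟨rfl, rfl⟩ := heq
      refine ⟨?_, b'.2, ?_, h.2⟩
      · simpa using ha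
      · simpa using hb
  rw [h, Set.ncard_image_of_injective]
  rintro ⟨a, b⟩ ⟨c, d⟩ h
  simp only [Prod.mk.injEq] at h
  exact Prod.ext (Subtype.ext h.1) (Subtype.ext h.2)


/-- The negation of the preceding statement: For every infinite connected locally finite vertex-transitive graph G, every k ≥ 1 and every maximal k-separated vertex set S, the Cheeger constant of the graph on S joining points at distance ≤ 2k is at least the Cheeger constant of G. -/
theorem result :
    ¬ (∀ (V : Type) (G : SimpleGraph V), Infinite V → G.Connected →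
      (∀ v : V, (G.neighborSet v).Finite) →
      (∀ u v : V, ∃ φ : G ≃g G, φ u = v) →
      ∀ k : ℕ, 1 ≤ k →
      ∀ S : Set V,
        (∀ u ∈ S, ∀ v ∈ S, u ≠ v → k ≤ G.dist u v) →
        (∀ w : V, w ∉ S → ∃ u ∈ S, G.dist w u < k) →
        sInf {r : ℝ | ∃ A : Finset V, A.Nonempty ∧
            r = (Set.ncard {p : V × V | p.1 ∈ A ∧ p.2 ∉ A ∧ G.Adj p.1 p.2} : ℝ)
              / (A.card : ℝ)}
          ≤
        sInf {r : ℝ | ∃ A : Finset V, A.Nonempty ∧ (↑A : Set V) ⊆ S ∧
            r = (Set.ncard {p : V × V | p.1 ∈ A ∧ p.2 ∈ S ∧ p.2 ∉ A ∧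
                  G.dist p.1 p.2 ≤ 2 * k} : ℝ)
              / (A.card : ℝ)}) := by
  intro h
  obtain ⟨V, G, hinf, hconn, hlf, htr, ⟨S, hS⟩, hall⟩ :=
    Pool.Agent.Results.MP_2d87f2_co.Blowup.result 2 le_rfl 1 one_pos
  have h1 := hall S hS
  have h2 := h V G hinf hconn hlf htr 2 (by norm_num) S hS.prop (by
    intro w hw
    by_contra hcon
    push Not at hcon
    have hsep : Pool.Agent.Results.MP_2d87f2_co.Blowup.Separated G 2 (insert w S) := by
      rintro u (rfl | hu) v (rfl | hv) huv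
      · exact absurd rfl huv
      · exact hcon v hv
      · rw [SimpleGraph.dist_comm]
        exact hcon u hu
      · exact hS.prop u hu v hv huv
    exact hw (hS.le_of_ge hsep (Set.subset_insert _ _) (Set.mem_insert _ _)))
  have e1 : {r : ℝ | ∃ A : Finset V, A.Nonempty ∧
            r = (Set.ncard {p : V × V | p.1 ∈ A ∧ p.2 ∉ A ∧ G.Adj p.1 p.2} : ℝ)
              / (A.card : ℝ)} = {r : ℝ | ∃ A : Finset V, A.Nonempty ∧
            r = ((Pool.Agent.Results.MP_2d87f2_co.Blowup.edgeBoundary G A).ncard : ℝ)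
              / (A.card : ℝ)} := by
    ext r
    constructor
    · rintro ⟨A, hA, rfl⟩
      exact ⟨A, hA, by rw [bd_ncard]⟩
    · rintro ⟨A, hA, rfl⟩
      exact ⟨A, hA, by rw [bd_ncard]⟩
  have e2 : {r : ℝ | ∃ A : Finset V, A.Nonempty ∧ (↑A : Set V) ⊆ S ∧
            r = (Set.ncard {p : V × V | p.1 ∈ A ∧ p.2 ∈ S ∧ p.2 ∉ A ∧
                  G.dist p.1 p.2 ≤ 2 * 2} : ℝ)
              / (A.card : ℝ)} = {r : ℝ | ∃ A : Finset S, A.Nonempty ∧
            r = ((Pool.Agent.Results.MP_2d87f2_co.Blowup.edgeBoundary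
              (Pool.Agent.Results.MP_2d87f2_co.Blowup.netGraph G 2 S) A).ncard : ℝ)
              / (A.card : ℝ)} := by
    ext r
    constructor
    · rintro ⟨A, hA, hAS, rfl⟩
      classical
      have hmap : (A.subtype (· ∈ S)).map (Function.Embedding.subtype _) = A := by
        rw [Finset.subtype_map]
        exact Finset.filter_true_of_mem fun x hx => hAS hx
      refine ⟨A.subtype (· ∈ S), ?_, ?_⟩
      · rw [← Finset.map_nonempty (f := Function.Embedding.subtype (· ∈ S)), hmap]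
        exact hA
      · rw [net_ncard, hmap]
        congr 2
        conv_lhs => rw [← hmap]
        rw [Finset.card_map]
    · rintro ⟨A, hA, rfl⟩
      refine ⟨A.map (Function.Embedding.subtype _), hA.map, ?_, ?_⟩
      · intro x hx
        simp only [Finset.coe_map, Function.Embedding.subtype_apply, Set.mem_image] at hx
        obtain ⟨y, -, rfl⟩ := hx
        exact y.2
      · rw [net_ncard, Finset.card_map]
  rw [e1, e2] at h2
  rw [one_mul] at h1
  exact absurd h2 (not_le.2 h1)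

end Pool.Agent.T2h40.Kept.S07874
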